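import Pool.Agent.Work.MP_db9399_lh_helper83.Deep0

/-! THEOREM LCH, block RND1: one round (helper83). -/

set_option autoImplicit false

namespace Pool.Agent.Work.MP_db9399_lh.helper83

open Finset Classical
open Pool.Agent.Work.MP_db9399_lh
open Pool.Agent.Work.MP_db9399_all (nb)
open Pool.Agent.Work.MP_db9399_px (LWalk hit ee)
open Pool.Agent.Work.MP_db9399_dn (NB IsMat Tot)
open Pool.Agent.Work.MP_db9399_sc (cut Crit Conn Env Fam Rnd Hv)
open Pool.Agent.Work.MP_db9399_bg (den cl LabP Good PN IsPat en enP Sep Near REnv r0 Deep Spr Ok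
  Lbl bx c3f c3 rs rs_symm eR HPre Ix mem_nb mem_cl card_univ_zmod)
open Pool.Agent.Work.MP_db9399_lc (BL)
open Pool.Agent.Work.MP_db9399_bg.helper83 (Fr Fr_le nb_Fr nb_Fr' nb_Fr_inter en_Fr notOk_card
  not_deep cl_univ)

universe u

section
variable {V : Type u} [Fintype V] {l m r K K1 S : ℕ}

theorem mem_rP0 {a : ZMod (2 * m + 1)} {h : Fin m} {τ : Option (ZMod 3)}
    {c : {c : Cr l S // τ ≠ some c.2.1}} {t : Lh l m r K K1 S} :
    t ∈ rP l r K K1 S a h τ (0, c) ↔ ce t = a ∧ cr t = c.1 := by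
  unfold rP
  rw [mem_cy, mem_singleton, mem_singleton]
  simp [c3f]

/-- symmetric difference inside the part `i` of the cell `a` -/
theorem near_cell {lab : V → Lh l m r K K1 S} {a : ZMod (2 * m + 1)} {h : Fin m}
    {τ : Option (ZMod 3)} {i : ZMod 3} (hτ : τ ≠ some i) {C Y : Finset V} {x : ℝ}
    (hn : ∀ b, Near (C ∩ cl lab (rP l r K K1 S a h τ b)) (Y ∩ cl lab (rP l r K K1 S a h τ b)) x) :
    (((C ∩ Vq lab a i) \ Y).card : ℝ) + (((Y ∩ Vq lab a i) \ C).card : ℝ) ≤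
      (2 * l + 1) * (S + 1) * x := by
  set B : ZMod (2 * l + 1) × ZMod (S + 1) → Fin 3 × {c : Cr l S // τ ≠ some c.2.1} :=
    fun y => (0, ⟨(y.1, (i, y.2)), hτ⟩) with hB
  have key : ∀ X Z : Finset V, ((X ∩ Vq lab a i) \ Z).card ≤
      ∑ y : ZMod (2 * l + 1) × ZMod (S + 1), ((X ∩ cl lab (rP l r K K1 S a h τ (B y))) \
        (Z ∩ cl lab (rP l r K K1 S a h τ (B y)))).card := by
    intro X Z
    have hsub : (X ∩ Vq lab a i) \ Z ⊆
        (univ : Finset (ZMod (2 * l + 1) × ZMod (S + 1))).biUnion fun y =>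
        (X ∩ cl lab (rP l r K K1 S a h τ (B y))) \ (Z ∩ cl lab (rP l r K K1 S a h τ (B y))) := by
      intro v hv
      rw [mem_sdiff, mem_inter, mem_Vq] at hv
      refine mem_biUnion.mpr ⟨((lab v).1.2.1, (lab v).2.2), mem_univ _, ?_⟩
      rw [mem_sdiff, mem_inter, mem_inter, mem_cl, mem_rP0]
      refine ⟨⟨hv.1.1, hv.1.2.1, ?_⟩, fun h => hv.2 h.1⟩
      have h1 : (lab v).2.1 = i := hv.1.2.2
      show ((lab v).1.2.1, (lab v).2) = ((lab v).1.2.1, (i, (lab v).2.2))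
      rw [← h1]
    exact (card_le_card hsub).trans card_biUnion_le
  have h1 := key C Y
  have h2 := key Y C
  have hc : (((univ : Finset (ZMod (2 * l + 1) × ZMod (S + 1))).card : ℕ) : ℝ) =
      (2 * l + 1) * (S + 1) := by
    rw [card_univ, Fintype.card_prod, ZMod.card, ZMod.card]
    push_cast
    ring
  calc (((C ∩ Vq lab a i) \ Y).card : ℝ) + (((Y ∩ Vq lab a i) \ C).card : ℝ)
      ≤ (∑ y : ZMod (2 * l + 1) × ZMod (S + 1), (((C ∩ cl lab (rP l r K K1 S a h τ (B y))) \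
        (Y ∩ cl lab (rP l r K K1 S a h τ (B y)))).card : ℝ)) +
        ∑ y : ZMod (2 * l + 1) × ZMod (S + 1), (((Y ∩ cl lab (rP l r K K1 S a h τ (B y))) \
        (C ∩ cl lab (rP l r K K1 S a h τ (B y)))).card : ℝ) := by
        refine add_le_add ?_ ?_
        · exact_mod_cast h1
        · exact_mod_cast h2
    _ = ∑ y : ZMod (2 * l + 1) × ZMod (S + 1),
        ((((C ∩ cl lab (rP l r K K1 S a h τ (B y))) \
        (Y ∩ cl lab (rP l r K K1 S a h τ (B y)))).card : ℝ) +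
        (((Y ∩ cl lab (rP l r K K1 S a h τ (B y))) \
        (C ∩ cl lab (rP l r K K1 S a h τ (B y)))).card : ℝ)) := by rw [sum_add_distrib]
    _ ≤ ∑ _y : ZMod (2 * l + 1) × ZMod (S + 1), x := sum_le_sum fun y _ => hn (B y)
    _ = (2 * l + 1) * (S + 1) * x := by
        rw [sum_const, nsmul_eq_mul, hc]

theorem den_univ2 : den (univ : Finset (Lh l m r K K1 S)) = 1 := by
  unfold den
  rw [card_univ]
  refine div_self ?_
  rw [card_Lh]
  positivity

/-- number of vertices of `Y` in a part of the cell `a` which are not deep in `C` -/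
theorem deep_count {g ε κ : ℝ} {G : SimpleGraph V} {d : ℕ} (hd : 0 < d) (hε : 0 ≤ ε)
    (hκ : ∀ {V : Type u} [Fintype V] (G : SimpleGraph V) (d N : ℕ)
      (Vg Y C : Finset V) (ε : ℝ), 0 < N → 0 < d → 0 ≤ ε → (∀ v, (nb G v).card ≤ d) →
      (∀ v, ((nb G v ∩ Vg).card : ℝ) ≤ 2 * d / N) →
      ee G Y (univ \ Y) ≤ ε * d * Y.card → ee G (Y ∩ Vg) (univ \ Y) ≤ ε * (d / N) * Y.card →
      ee G Y (Vg \ Y) ≤ ε * (d / N) * Y.card →
      ee G (Y ∩ Vg) (Vg \ Y) ≤ ε * (d / (N : ℝ) ^ 2) * Y.card →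
      (((Y ∩ Vg).filter (fun v => ¬ Deep g G d N Vg C v)).card : ℝ) ≤
        κ * (ε * Y.card / N + (((Y ∩ Vg) \ C).card : ℝ)))
    {lab : V → Lh l m r K K1 S} {Y C : Finset V} (hdeg : ∀ v, (nb G v).card ≤ d)
    (a : ZMod (2 * m + 1)) (i : ZMod 3)
    (hcell : ∀ v, ((nb G v ∩ Vq lab a i).card : ℝ) ≤ 2 * d / ((3 * (2 * m + 1) : ℕ) : ℝ))
    (hee : ∀ P' Q' : Finset (Lh l m r K K1 S),
      ee G (Y ∩ cl lab P') (cl lab Q' \ Y) ≤ ε * (den P' * den Q') * d * Y.card) :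
    (((Y ∩ Vq lab a i).filter
      (fun v => ¬ Deep g G d (3 * (2 * m + 1)) (Vq lab a i) C v)).card : ℝ) ≤
      κ * (ε * Y.card / (3 * (2 * (m : ℝ) + 1)) + (((Y ∩ Vq lab a i) \ C).card : ℝ)) := by
  have h00 := hee univ univ
  have h10 := hee (cy {a} (Pc l S i)) univ
  have h01 := hee univ (cy {a} (Pc l S i))
  have h11 := hee (cy {a} (Pc l S i)) (cy {a} (Pc l S i))
  rw [cl_univ, den_univ2, inter_univ] at h00
  rw [cl_univ, ← Vq_eq, den_univ2, den_Vq] at h10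
  rw [cl_univ, ← Vq_eq, den_univ2, den_Vq, inter_univ] at h01
  rw [← Vq_eq, den_Vq] at h11
  have hN : (0 : ℝ) < 2 * (m : ℝ) + 1 := by positivity
  have := hκ G d (3 * (2 * m + 1)) (Vq lab a i) Y C ε (by omega) hd hε hdeg hcell
    (by linarith) (by push_cast; refine h10.trans (le_of_eq ?_); ring)
    (by push_cast; refine h01.trans (le_of_eq ?_); ring)
    (by push_cast; refine h11.trans (le_of_eq ?_); field_simp)
  push_cast at this
  exact this

end

theorem nr_some (S : ℕ) (j : ZMod 3) : nr S (some j) = nr S (some 0) := by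
  simp [nr, np]

theorem nr_bd (S : ℕ) (τ : Option (ZMod 3)) : 1 ≤ nr S τ ∧ nr S τ ≤ 10 * (S + 1) := by
  unfold nr np
  split_ifs <;> omega

theorem nr_cases (S : ℕ) (τ : Option (ZMod 3)) : nr S τ = nr S none ∨ nr S τ = nr S (some 0) := by
  cases τ with
  | none => exact Or.inl rfl
  | some j => exact Or.inr (nr_some S j)

/-- T1 for two degrees -/
theorem T1two (hT1 : MP_db9399_lc.Stmt_T1.{u}) (g ε : ℝ) (n1 n2 B L : ℕ) (hg : 0 < g)
    (hε : 0 < ε) : ∃ δ : ℝ, 0 < δ ∧ ∀ M : ℕ, 0 < M →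
    ∃ (σ c1 ε0 : ℝ) (d0 : ℕ), 0 < σ ∧ 0 < c1 ∧ 0 < ε0 ∧
    ∀ {T β : Type} [Fintype T] [Fintype β] (P : β → Finset T) (R : β → β → Prop) (p : ℝ)
      {V : Type u} [Fintype V] (G F : SimpleGraph V) (n d qq : ℕ) (lab : V → T)
      (U J L' C : Finset V), (n = n1 ∨ n = n2) → IsPat P R n L p → Fintype.card β ≤ B →
      Fintype.card T = M →
      d0 ≤ d → BL g ε0 G d → LabP G d σ c1 lab → REnv G F (n * p * d) δ lab P R U J →
      n * p * d ≤ qq → (qq : ℝ) ≤ 101 / 100 * (n * p * d) → L' ⊆ U → Crit F qq U L' C →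
      Conn F C →
      ∃ Y : Finset V, (1 + g) * d < Y.card ∧
        (∀ P' Q' : Finset T,
          ee G (Y ∩ cl lab P') (cl lab Q' \ Y) ≤ ε * (den P' * den Q') * d * Y.card) ∧
        (∀ P' : Finset T, |((Y ∩ cl lab P').card : ℝ) - den P' * Y.card| ≤
          ε * den P' * Y.card) ∧
        ∀ b, Near (C ∩ cl lab (P b)) (Y ∩ cl lab (P b)) (ε * p * Y.card) := by
  obtain ⟨δ1, hδ1, H1⟩ := hT1 g ε n1 B L hg hε
  obtain ⟨δ2, hδ2, H2⟩ := hT1 g ε n2 B L hg hε
  refine ⟨min δ1 δ2, lt_min hδ1 hδ2, fun M hM => ?_⟩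
  obtain ⟨σ1, c1, ε1, d1, hσ1, hc1, hε1, H1'⟩ := H1 M hM
  obtain ⟨σ2, c2, ε2, d2, hσ2, hc2, hε2, H2'⟩ := H2 M hM
  refine ⟨min σ1 σ2, min c1 c2, min ε1 ε2, max d1 d2, lt_min hσ1 hσ2, lt_min hc1 hc2,
    lt_min hε1 hε2, ?_⟩
  intro T β _ _ P R p V _ G F n d qq lab U J L' C hn hP hB hT hd hBL hL hE hq1 hq2 hLU hC hc
  have hq0 : (0 : ℝ) ≤ n * p * d :=
    mul_nonneg (mul_nonneg (Nat.cast_nonneg _) hP.p0.le) (Nat.cast_nonneg _)
  rcases hn with hn | hn
  · subst hn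
    exact H1' P R p G F d qq lab U J L' C hP hB hT ((le_max_left _ _).trans hd)
      (BL_mono hBL (min_le_left _ _)) (hL.mono (min_le_left _ _) (min_le_left _ _))
      (hE.mono hq0 (min_le_left _ _)) hq1 hq2 hLU hC hc
  · subst hn
    exact H2' P R p G F d qq lab U J L' C hP hB hT ((le_max_right _ _).trans hd)
      (BL_mono hBL (min_le_right _ _)) (hL.mono (min_le_right _ _) (min_le_right _ _))
      (hE.mono hq0 (min_le_right _ _)) hq1 hq2 hLU hC hc

/-- SXP for two degrees -/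
theorem SXPtwo (hSXP : MP_db9399_lc.Stmt_SXP.{u}) (g : ℝ) (n1 n2 B L : ℕ) (hg : 0 < g) :
    ∃ c : ℝ, 0 < c ∧ c ≤ 1 ∧ ∀ M : ℕ, 0 < M →
    ∃ (σ c1 ε0 : ℝ) (d0 : ℕ), 0 < σ ∧ 0 < c1 ∧ 0 < ε0 ∧
    ∀ {T β : Type} [Fintype T] [Fintype β] (P : β → Finset T) (R : β → β → Prop) (p : ℝ)
      {V : Type u} [Fintype V] (G : SimpleGraph V) (n d : ℕ) (lab : V → T) (A B' : Finset V),
      (n = n1 ∨ n = n2) →
      IsPat P R n L p → Fintype.card β ≤ B → Fintype.card T = M → d0 ≤ d → BL g ε0 G d →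
      LabP G d σ c1 lab → Disjoint A B' → A ∪ B' ⊆ cl lab (univ.biUnion P) →
      c * (n * p * d) * ((A.card : ℝ) + B'.card) ≤ enP G lab P R A B' := by
  obtain ⟨c, hc, hc', H1⟩ := hSXP g n1 B L hg
  obtain ⟨c', hcc, hcc', H2⟩ := hSXP g n2 B L hg
  refine ⟨min c c', lt_min hc hcc, (min_le_left _ _).trans hc', fun M hM => ?_⟩
  obtain ⟨σ1, c1, ε1, d1, hσ1, hc1, hε1, H1'⟩ := H1 M hM
  obtain ⟨σ2, c2, ε2, d2, hσ2, hc2, hε2, H2'⟩ := H2 M hM
  refine ⟨min σ1 σ2, min c1 c2, min ε1 ε2, max d1 d2, lt_min hσ1 hσ2, lt_min hc1 hc2,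
    lt_min hε1 hε2, ?_⟩
  intro T β _ _ P R p V _ G n d lab A B' hn hP hB hT hd hBL hL hd1 hd2
  have hq0 : (0 : ℝ) ≤ n * p * d :=
    mul_nonneg (mul_nonneg (Nat.cast_nonneg _) hP.p0.le) (Nat.cast_nonneg _)
  have hAB : (0 : ℝ) ≤ (A.card : ℝ) + B'.card := by positivity
  rcases hn with hn | hn
  · subst hn
    refine le_trans ?_ (H1' P R p G d lab A B' hP hB hT ((le_max_left _ _).trans hd)
      (BL_mono hBL (min_le_left _ _)) (hL.mono (min_le_left _ _) (min_le_left _ _)) hd1 hd2)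
    exact mul_le_mul_of_nonneg_right (mul_le_mul_of_nonneg_right (min_le_left _ _) hq0) hAB
  · subst hn
    refine le_trans ?_ (H2' P R p G d lab A B' hP hB hT ((le_max_right _ _).trans hd)
      (BL_mono hBL (min_le_right _ _)) (hL.mono (min_le_right _ _) (min_le_right _ _)) hd1 hd2)
    exact mul_le_mul_of_nonneg_right (mul_le_mul_of_nonneg_right (min_le_right _ _) hq0) hAB

theorem card_pat (l S : ℕ) (τ : Option (ZMod 3)) :
    Fintype.card (Fin 3 × {c : Cr l S // τ ≠ some c.2.1}) ≤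
      3 * ((2 * l + 1) * (3 * (S + 1))) := by
  rw [Fintype.card_prod, Fintype.card_fin]
  refine Nat.mul_le_mul_left _ ?_
  refine (Fintype.card_subtype_le _).trans ?_
  rw [Fintype.card_prod, Fintype.card_prod, ZMod.card, ZMod.card, ZMod.card]

theorem stmt_RND1 (hSXP : MP_db9399_lc.Stmt_SXP.{u}) (hSXR : MP_db9399_bg.Stmt_SXR.{u})
    (hT1 : MP_db9399_lc.Stmt_T1.{u}) (hPAT : Stmt_PAT) (hGROW : MP_db9399_lc.Stmt_GROW.{u})
    (hDEEPF : MP_db9399_bg.Stmt_DEEPF.{u}) (hHIT2 : MP_db9399_bg.Stmt_HIT2.{u})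
    (hTUT2 : MP_db9399_bg.Stmt_TUT2.{u}) : Stmt_RND1.{u} := by
  intro g hg hg1
  obtain ⟨κ, hκ0, hκ⟩ := hDEEPF g hg
  set ε : ℝ := g / (40 * (5 + 2 * κ)) with hεdef
  have hε0 : 0 < ε := by positivity
  have hε1 : ε * (5 + 2 * κ) ≤ g / 40 := by
    rw [hεdef]
    have : (5 + 2 * κ) ≠ 0 := by positivity
    field_simp
    exact le_rfl
  refine ⟨⌈100 / g⌉₊ + 2, ?_⟩
  intro l S hl
  have hl2 : 2 ≤ l := by omega
  have hlg : 200 ≤ g * (2 * (l : ℝ) + 1) := by
    have h1 : (100 / g : ℝ) ≤ l := by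
      have h2 : ((⌈100 / g⌉₊ : ℕ) : ℝ) ≤ l := by
        exact_mod_cast (show ⌈100 / g⌉₊ ≤ l by omega)
      exact (Nat.le_ceil _).trans h2
    rw [div_le_iff₀ hg] at h1
    nlinarith
  obtain ⟨δ1, hδ1, hT1'⟩ := T1two hT1 g ε (nr S none) (nr S (some 0))
    (3 * ((2 * l + 1) * (3 * (S + 1)))) (4 * l + 3) hg hε0
  obtain ⟨cS, hcS0, hcS1, hSXP'⟩ := SXPtwo hSXP g (nr S none) (nr S (some 0))
    (3 * ((2 * l + 1) * (3 * (S + 1)))) (4 * l + 3) hg
  set c : ℝ := min (cS / 8) (1 / 100) with hc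
  have hc0 : 0 < c := lt_min (by positivity) (by norm_num)
  obtain ⟨δ2, dT, hδ2, hTUT⟩ := hTUT2 c hc0 (min_le_right _ _)
  obtain ⟨dH, hHIT⟩ := hHIT2
  set δ : ℝ := min (min δ1 (δ2 / 10)) (min (cS / 100) (1 / 100000)) with hδdef
  have hδ0 : 0 < δ := lt_min (lt_min hδ1 (by positivity)) (lt_min (by positivity) (by norm_num))
  have hδa : δ ≤ δ1 := (min_le_left _ _).trans (min_le_left _ _)
  have hδb : δ ≤ δ2 / 10 := (min_le_left _ _).trans (min_le_right _ _)
  have hδc : δ ≤ cS / 100 := (min_le_right _ _).trans (min_le_left _ _)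
  have hδd : δ ≤ 1 / 100000 := (min_le_right _ _).trans (min_le_right _ _)
  refine ⟨δ, hδ0, ?_⟩
  intro m r K K1 hm
  have hM : 0 < Fintype.card (Lh l m r K K1 S) := by rw [card_Lh]; positivity
  obtain ⟨σ1, c11, ε1, d1, hσ1, hc11, hε1', HT1⟩ := hT1' (Fintype.card (Lh l m r K K1 S)) hM
  obtain ⟨σ2, c12, ε2, d2, hσ2, hc12, hε2', HSX⟩ := hSXP' (Fintype.card (Lh l m r K K1 S)) hM
  obtain ⟨hPat, -⟩ := hPAT l m r K K1 S hl2 hm
  set N : ℝ := 3 * (2 * (m : ℝ) + 1) with hN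
  set Λ : ℝ := 2 * (l : ℝ) + 1 with hΛ
  have hN0 : 0 < N := by positivity
  have hΛ0 : 0 < Λ := by positivity
  have hS0 : (0 : ℝ) < (S : ℝ) + 1 := by positivity
  have hp0 : 0 < pr l m S := (hPat 0 ⟨0, by omega⟩ none).p0
  have hpe : pr l m S * ((S : ℝ) + 1) = 1 / (N * Λ) := by
    rw [pr, hN, hΛ]
    field_simp
  -- the constants
  set σ : ℝ := min (min σ1 σ2) (min (δ * pr l m S) (g / (200 * N))) with hσdef
  have hσ0 : 0 < σ := lt_min (lt_min hσ1 hσ2) (lt_min (by positivity) (by positivity))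
  set ε0 : ℝ := min (min ε1 ε2) (min δ (g / 200)) with hε0def
  have hε00 : 0 < ε0 := lt_min (lt_min hε1' hε2') (lt_min hδ0 (by positivity))
  obtain ⟨D0, hD0⟩ : ∃ D0 : ℕ, 4 * (2500 + 10 / δ2 + dH + dT) / pr l m S ≤ (D0 : ℝ) :=
    ⟨⌈4 * (2500 + 10 / δ2 + dH + dT) / pr l m S⌉₊, Nat.le_ceil _⟩
  refine ⟨σ, min c11 c12, ε0, max (max d1 d2) (D0 + 1), hσ0, lt_min hc11 hc12, hε00, ?_⟩
  intro V _ G d lab hd hBG hLab
  have hd1 : d1 ≤ d := (le_max_left _ _).trans ((le_max_left _ _).trans hd)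
  have hd2 : d2 ≤ d := (le_max_right _ _).trans ((le_max_left _ _).trans hd)
  have hdD : D0 + 1 ≤ d := (le_max_right _ _).trans hd
  have hd0 : 0 < d := by omega
  have hdR : (0 : ℝ) < d := by exact_mod_cast hd0
  have hDd : (D0 : ℝ) ≤ d := by exact_mod_cast (by omega : D0 ≤ d)
  have hσN : σ * N ≤ g / 200 := by
    have h1 : σ ≤ g / (200 * N) := (min_le_right _ _).trans (min_le_right _ _)
    calc σ * N ≤ g / (200 * N) * N := mul_le_mul_of_nonneg_right h1 hN0.le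
      _ = g / 200 := by field_simp
  have hε0δ : ε0 ≤ δ := (min_le_right _ _).trans (min_le_left _ _)
  have hε0g : ε0 ≤ g / 200 := (min_le_right _ _).trans (min_le_right _ _)
  have hBG1 : BL g ε1 G d := BL_mono hBG ((min_le_left _ _).trans (min_le_left _ _))
  have hBG2 : BL g ε2 G d := BL_mono hBG ((min_le_left _ _).trans (min_le_right _ _))
  have hBGg : BL g (g / 100) G d := BL_mono hBG (by linarith)
  have hLab1 : LabP G d σ1 c11 lab :=
    hLab.mono ((min_le_left _ _).trans (min_le_left _ _)) (min_le_left _ _)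
  have hLab2 : LabP G d σ2 c12 lab :=
    hLab.mono ((min_le_left _ _).trans (min_le_right _ _)) (min_le_right _ _)
  have hcell := cell_deg hLab hBG hε0g hg1 hσN
  intro τ i F a h U J lg Oi hτ hE hlgN hO
  -- the typical degree
  obtain ⟨hnr1, hnr2⟩ := nr_bd S τ
  have hnr1' : (1 : ℝ) ≤ nr S τ := by exact_mod_cast hnr1
  have hnr2' : (nr S τ : ℝ) ≤ 10 * ((S : ℝ) + 1) := by exact_mod_cast hnr2
  set q : ℝ := qr l m S τ d with hq
  have hqn : (nr S τ : ℝ) * pr l m S * (d : ℝ) = q := rfl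
  have hpd : pr l m S * d ≤ q := by
    rw [← hqn]
    calc pr l m S * d = 1 * pr l m S * d := by ring
      _ ≤ _ := mul_le_mul_of_nonneg_right (mul_le_mul_of_nonneg_right hnr1' hp0.le) hdR.le
  have hq0 : 0 < q := lt_of_lt_of_le (mul_pos hp0 hdR) hpd
  have hqup : q ≤ 10 * (d : ℝ) / (N * Λ) := by
    rw [← hqn]
    calc (nr S τ : ℝ) * pr l m S * d ≤ 10 * ((S : ℝ) + 1) * pr l m S * d :=
          mul_le_mul_of_nonneg_right (mul_le_mul_of_nonneg_right hnr2' hp0.le) hdR.le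
      _ = 10 * d * (pr l m S * ((S : ℝ) + 1)) := by ring
      _ = 10 * (d : ℝ) / (N * Λ) := by rw [hpe]; ring
  have hqbig : 4 * (2500 + 10 / δ2 + dH + dT) ≤ q := by
    refine le_trans ?_ hpd
    have h1 : 4 * (2500 + 10 / δ2 + dH + dT) / pr l m S ≤ d := hD0.trans hDd
    rw [div_le_iff₀ hp0] at h1
    linarith
  have hδ2i : 0 < 10 / δ2 := by positivity
  have hdH0 : (0 : ℝ) ≤ dH := Nat.cast_nonneg _
  have hdT0 : (0 : ℝ) ≤ dT := Nat.cast_nonneg _
  have hσq : σ * d ≤ δ * q := by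
    have h1 : σ ≤ δ * pr l m S := (min_le_right _ _).trans (min_le_left _ _)
    calc σ * d ≤ δ * pr l m S * d := mul_le_mul_of_nonneg_right h1 hdR.le
      _ = δ * (pr l m S * d) := by ring
      _ ≤ δ * q := mul_le_mul_of_nonneg_left hpd hδ0.le
  -- restriction to U
  have hPa := hPat a h τ
  have hE' := Pool.Agent.Work.MP_db9399_bg.helper83.REnv.restrict hE
  set F' : SimpleGraph V := Fr F U with hF'
  have hE'' : REnv G F' ((nr S τ : ℝ) * pr l m S * (d : ℝ)) δ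
      lab (rP l r K K1 S a h τ) (rR l S τ) U J := hE'
  have hdegs := env_deg hPa hLab hBG hE'' (by rw [hqn]; exact hσq) hε0δ hδ0.le
  rw [hqn] at hdegs
  obtain ⟨qq, hqq1, hqq2⟩ : ∃ qq : ℕ, (1 + 3 * δ) * q ≤ qq ∧ (qq : ℝ) < (1 + 3 * δ) * q + 1 :=
    ⟨⌈(1 + 3 * δ) * q⌉₊, Nat.le_ceil _, Nat.ceil_lt_add_one (by positivity)⟩
  have hδq : 0 < δ * q := by positivity
  have hδq1 : δ * q ≤ 1 / 100000 * q := mul_le_mul_of_nonneg_right hδd hq0.le
  have hδq2 : δ * q ≤ δ2 / 10 * q := mul_le_mul_of_nonneg_right hδb hq0.le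
  have hqqq : q ≤ qq := by linarith
  have hqq3 : (qq : ℝ) ≤ 101 / 100 * q := by linarith
  have hdeg' : ∀ v, (nb F' v).card ≤ qq := by
    intro v
    by_cases hv : v ∈ U
    · have h1 := (hdegs v hv).2
      have h2 : nb F' v ∩ U = nb F' v := by
        rw [hF', nb_Fr F hv, inter_assoc, inter_self]
      rw [h2] at h1
      have h3 : ((nb F' v).card : ℝ) ≤ qq := by linarith
      exact_mod_cast h3
    · rw [hF', nb_Fr' F hv]; simp
  have hEnv : Env F' F' qq U U := by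
    refine ⟨le_rfl, hdeg', Subset.refl _, ?_⟩
    intro v hv
    have h1 := (hdegs v hv).1
    have h2 : (999 : ℝ) * qq ≤ 1000 * ((nb F' v ∩ U).card : ℝ) := by linarith
    exact_mod_cast h2
  have hdHq : dH ≤ qq := by
    have : (dH : ℝ) ≤ qq := by linarith
    exact_mod_cast this
  have hdTq : dT ≤ qq := by
    have : (dT : ℝ) ≤ qq := by linarith
    exact_mod_cast this
  obtain ⟨Cs, hFam, hCs⟩ := hHIT F' qq U U hdHq hEnv
  -- the exceptional vertices
  have hcardβ := card_pat l S τ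
  have hex : ∀ C ∈ Cs, ∃ z ∈ C, (ce (lab z) = a ∧ pt (lab z) = i ∧ inM (lab z)) ∧
      Deep g G d (3 * (2 * m + 1)) (Vq lab a i) C z ∧ Ok F' U C z ∧ ∀ j < lg, z ∉ Oi j := by
    intro C hC
    have hcrit := hFam.crit C hC
    have hconn := hFam.conn C hC
    obtain ⟨Y, hY1, hY2, hY3, hY4⟩ := HT1 (rP l r K K1 S a h τ) (rR l S τ)
      (pr l m S) G F' (nr S τ) d qq lab U J U C (nr_cases S τ) hPa hcardβ rfl hd1 hBG1
      hLab1 (hE''.mono (by rw [hqn]; exact hq0.le) hδa) (by rw [hqn]; exact hqqq)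
      (by rw [hqn]; exact hqq3) (Subset.refl _) hcrit hconn
    have hYpos : (0 : ℝ) < Y.card := lt_of_le_of_lt (by positivity) hY1
    set t : ℝ := Y.card / N with ht
    have ht0 : 0 < t := by positivity
    have hnear := near_cell hτ hY4
    have hsd : (((C ∩ Vq lab a i) \ Y).card : ℝ) + (((Y ∩ Vq lab a i) \ C).card : ℝ) ≤
        ε * t := by
      refine hnear.trans (le_of_eq ?_)
      rw [ht, ← hΛ]
      calc Λ * ((S : ℝ) + 1) * (ε * pr l m S * (Y.card : ℝ)) =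
          Λ * (pr l m S * ((S : ℝ) + 1)) * (ε * (Y.card : ℝ)) := by ring
        _ = _ := by rw [hpe]; field_simp
    have hsd1 : (0 : ℝ) ≤ (((C ∩ Vq lab a i) \ Y).card : ℝ) := Nat.cast_nonneg _
    have hsd2 : (0 : ℝ) ≤ (((Y ∩ Vq lab a i) \ C).card : ℝ) := Nat.cast_nonneg _
    -- sizes
    have hcv : ((C ∩ Vq lab a i).card : ℝ) ≤ (1 + 2 * ε) * t := by
      have h1 := hY3 (cy {a} (Pc l S i))
      rw [← Vq_eq, den_Vq, ← hN, abs_le] at h1
      have h2 : ((C ∩ Vq lab a i).card : ℝ) ≤ ((Y ∩ Vq lab a i).card : ℝ) +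
          (((C ∩ Vq lab a i) \ Y).card : ℝ) := by
        have : C ∩ Vq lab a i ⊆ (Y ∩ Vq lab a i) ∪ ((C ∩ Vq lab a i) \ Y) := by
          intro v hv
          by_cases hvY : v ∈ Y
          · exact mem_union_left _ (mem_inter.mpr ⟨hvY, (mem_inter.mp hv).2⟩)
          · exact mem_union_right _ (mem_sdiff.mpr ⟨hv, hvY⟩)
        exact_mod_cast (card_le_card this).trans (card_union_le _ _)
      have h3 : 1 / N * (Y.card : ℝ) = t := by rw [ht]; ring
      have h4 : ε * (1 / N) * (Y.card : ℝ) = ε * t := by rw [ht]; ring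
      rw [h3, h4] at h1
      linarith [h1.2]
    have hx1 : t * (1 - 4 / Λ - 2 * ε) ≤
        ((C.filter (fun z => ce (lab z) = a ∧ pt (lab z) = i ∧ inM (lab z))).card : ℝ) := by
      have h1 := hY3 (cy {a} (Mc l S i))
      obtain ⟨hd3, hd4⟩ := den_Mq (l := l) (m := m) (r := r) (K := K) (K1 := K1) (S := S) a i
      rw [← hN, ← hΛ] at hd3
      rw [← hN] at hd4
      rw [abs_le] at h1
      have h2 : ((Y ∩ cl lab (cy {a} (Mc l S i))).card : ℝ) ≤
          ((C.filter (fun z => ce (lab z) = a ∧ pt (lab z) = i ∧ inM (lab z))).card : ℝ) +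
          (((Y ∩ Vq lab a i) \ C).card : ℝ) := by
        have : Y ∩ cl lab (cy {a} (Mc l S i)) ⊆
            (C.filter (fun z => ce (lab z) = a ∧ pt (lab z) = i ∧ inM (lab z))) ∪
              ((Y ∩ Vq lab a i) \ C) := by
          intro v hv
          rw [mem_inter, mem_cl, mem_Mq] at hv
          by_cases hvC : v ∈ C
          · exact mem_union_left _ (mem_filter.mpr ⟨hvC, hv.2⟩)
          · exact mem_union_right _ (mem_sdiff.mpr
              ⟨mem_inter.mpr ⟨hv.1, mem_Vq.mpr ⟨hv.2.1, hv.2.2.1⟩⟩, hvC⟩)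
        exact_mod_cast (card_le_card this).trans (card_union_le _ _)
      have h3 : (1 - 4 / Λ) * t ≤ den (cy {a} (Mc l S i) : Finset (Lh l m r K K1 S)) *
          (Y.card : ℝ) := by
        calc (1 - 4 / Λ) * t = (1 - 4 / Λ) * (1 / N) * (Y.card : ℝ) := by rw [ht]; ring
          _ ≤ _ := mul_le_mul_of_nonneg_right hd3 hYpos.le
      have h4 : ε * den (cy {a} (Mc l S i) : Finset (Lh l m r K K1 S)) * (Y.card : ℝ) ≤
          ε * t := by
        calc ε * den (cy {a} (Mc l S i) : Finset (Lh l m r K K1 S)) * (Y.card : ℝ) ≤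
            ε * (1 / N) * (Y.card : ℝ) :=
              mul_le_mul_of_nonneg_right (mul_le_mul_of_nonneg_left hd4 hε0.le) hYpos.le
          _ = ε * t := by rw [ht]; ring
      have h6 : t * (1 - 4 / Λ - 2 * ε) = (1 - 4 / Λ) * t - ε * t - ε * t := by ring
      rw [h6]
      linarith [h1.1]
    -- not deep
    have hb1 : (((C ∩ Vq lab a i).filter
        (fun v => ¬ Deep g G d (3 * (2 * m + 1)) (Vq lab a i) C v)).card : ℝ) ≤
        (1 + 2 * κ) * ε * t := by
      have h1 := not_deep (Deep g G d (3 * (2 * m + 1)) (Vq lab a i) C) (Vq lab a i) Y C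
      have h2 := deep_count (C := C) hd0 hε0.le hκ (fun v => hBG.deg v) a i
        (fun v => (hcell a i v).2) hY2
      rw [← hN] at h2
      have h3 : ε * (Y.card : ℝ) / N = ε * t := by rw [ht]; ring
      rw [h3] at h2
      have h4 : κ * (ε * t + (((Y ∩ Vq lab a i) \ C).card : ℝ)) ≤ κ * (ε * t + ε * t) :=
        mul_le_mul_of_nonneg_left (by linarith) hκ0.le
      have h5 : (1 + 2 * κ) * ε * t = ε * t + κ * (ε * t + ε * t) := by ring
      rw [h5]
      linarith only [h1, h2, h4, hsd, hsd1, hsd2]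
    -- used and deep
    have hb2 := used_deep hGROW hg hg1 G d (3 * (2 * m + 1)) (by omega) hd0 hBGg (Vq lab a i) C
      (fun v => (hcell a i v).1) lg Oi hlgN hO
    -- not Ok
    have hb3 : ((C.filter (fun z => ¬ Ok F' U C z)).card : ℝ) ≤ 20 * t / Λ := by
      have h1 := notOk_card F' U C qq ((1 - 3 * δ) * q) (fun v hv => (hdegs v hv).1) hcrit.1
        hcrit.2.2 (by linarith)
      have h2 : (5 : ℝ) * cut F' U C < 7 * qq := by exact_mod_cast hcrit.2.2
      have h3 : ((C.filter (fun z => ¬ Ok F' U C z)).card : ℝ) ≤ 4 + cut F' U C := by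
        exact_mod_cast h1
      have h4 : 2 * q ≤ 20 * t / Λ := by
        rw [ht]
        have h5 : (d : ℝ) ≤ Y.card := by
          have : 0 ≤ g * d := by positivity
          linarith
        calc 2 * q ≤ 2 * (10 * (d : ℝ) / (N * Λ)) :=
              mul_le_mul_of_nonneg_left hqup (by norm_num)
          _ = 20 * ((d : ℝ) / N) / Λ := by field_simp; norm_num
          _ ≤ _ := by
            refine div_le_div_of_nonneg_right ?_ hΛ0.le
            exact mul_le_mul_of_nonneg_left (div_le_div_of_nonneg_right h5 hN0.le) (by norm_num)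
      linarith
    have hfin := final_ineq
      (x1 := ((C.filter (fun z => ce (lab z) = a ∧ pt (lab z) = i ∧ inM (lab z))).card : ℝ))
      (b1 := (((C ∩ Vq lab a i).filter
        (fun v => ¬ Deep g G d (3 * (2 * m + 1)) (Vq lab a i) C v)).card : ℝ))
      (b2 := (((C ∩ Vq lab a i).filter (fun z => Deep g G d (3 * (2 * m + 1)) (Vq lab a i) C z ∧
        ∃ j < lg, z ∈ Oi j)).card : ℝ))
      (b3 := ((C.filter (fun z => ¬ Ok F' U C z)).card : ℝ))
      ht0 hg hg1 hκ0 hε0.le hε1 hlg hΛ0 hx1 hb1 (Nat.cast_nonneg _) hb2 hcv hb3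
    by_contra hno
    push Not at hno
    have hsub : C.filter (fun z => ce (lab z) = a ∧ pt (lab z) = i ∧ inM (lab z)) ⊆
        (((C ∩ Vq lab a i).filter
          (fun v => ¬ Deep g G d (3 * (2 * m + 1)) (Vq lab a i) C v)) ∪
        ((C ∩ Vq lab a i).filter (fun z => Deep g G d (3 * (2 * m + 1)) (Vq lab a i) C z ∧
          ∃ j < lg, z ∈ Oi j))) ∪ (C.filter (fun z => ¬ Ok F' U C z)) := by
      intro z hz
      obtain ⟨hzC, hza⟩ := mem_filter.mp hz
      have hzV : z ∈ C ∩ Vq lab a i := mem_inter.mpr ⟨hzC, mem_Vq.mpr ⟨hza.1, hza.2.1⟩⟩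
      by_cases hD : Deep g G d (3 * (2 * m + 1)) (Vq lab a i) C z
      · by_cases hOk : Ok F' U C z
        · obtain ⟨j, hj, hj2⟩ := hno z hzC hza hD hOk
          exact mem_union_left _ (mem_union_right _ (mem_filter.mpr ⟨hzV, hD, j, hj, hj2⟩))
        · exact mem_union_right _ (mem_filter.mpr ⟨hzC, hOk⟩)
      · exact mem_union_left _ (mem_union_left _ (mem_filter.mpr ⟨hzV, hD⟩))
    have h7 := (card_le_card hsub).trans (card_union_le _ _)
    have h8 := card_union_le ((C ∩ Vq lab a i).filter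
        (fun v => ¬ Deep g G d (3 * (2 * m + 1)) (Vq lab a i) C v))
        ((C ∩ Vq lab a i).filter (fun z => Deep g G d (3 * (2 * m + 1)) (Vq lab a i) C z ∧
          ∃ j < lg, z ∈ Oi j))
    have h9 : ((C.filter (fun z => ce (lab z) = a ∧ pt (lab z) = i ∧ inM (lab z))).card : ℝ) ≤
        (((C ∩ Vq lab a i).filter
        (fun v => ¬ Deep g G d (3 * (2 * m + 1)) (Vq lab a i) C v)).card : ℝ) +
        (((C ∩ Vq lab a i).filter (fun z => Deep g G d (3 * (2 * m + 1)) (Vq lab a i) C z ∧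
        ∃ j < lg, z ∈ Oi j)).card : ℝ) + ((C.filter (fun z => ¬ Ok F' U C z)).card : ℝ) := by
      exact_mod_cast h7.trans (Nat.add_le_add_right h8 _)
    linarith
  -- choice
  choose f hf using hex
  set O : Finset V := Cs.attach.image (fun C => f C.1 C.2) with hOdef
  have hOmem : ∀ z ∈ O, ∃ (C : Finset V) (hC : C ∈ Cs), f C hC = z := by
    intro z hz
    obtain ⟨C, -, h1⟩ := mem_image.mp hz
    exact ⟨C.1, C.2, h1⟩
  have hOf : ∀ (C : Finset V) (hC : C ∈ Cs), f C hC ∈ O := fun C hC =>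
    mem_image.mpr ⟨⟨C, hC⟩, mem_attach _ _, rfl⟩
  have hen : ∀ A B : Finset V, Disjoint A B → A ⊆ U → B ⊆ U →
      c * qq * ((A.card : ℝ) + B.card) ≤ en F' U A B := by
    intro A B hAB hA hB
    have h1 := hSXR (rP l r K K1 S a h τ) (rR l S τ) (nr S τ) (4 * l + 3)
      (pr l m S) cS δ q G F' lab U J hPa hcS0 hcS1 hδ0.le hδc
      hq0.le (by
        intro A B h1 h2
        have h3 := HSX (rP l r K K1 S a h τ) (rR l S τ)
          (pr l m S) G (nr S τ) d lab A B (nr_cases S τ) hPa hcardβ rfl hd2 hBG2 hLab2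
          h1 h2
        rw [hqn] at h3
        exact h3) hE' A B hAB hA hB
    refine le_trans ?_ h1
    have h4 : c * qq ≤ cS / 4 * q := by
      have h5 : c ≤ cS / 8 := min_le_left _ _
      calc c * qq ≤ cS / 8 * qq := mul_le_mul_of_nonneg_right h5 (Nat.cast_nonneg _)
        _ ≤ cS / 8 * (101 / 100 * q) := mul_le_mul_of_nonneg_left hqq3 (by positivity)
        _ ≤ cS / 4 * q := by linarith only [mul_pos hcS0 hq0]
    exact mul_le_mul_of_nonneg_right h4 (by positivity)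
  have hlow : ∀ v ∈ U, (1 - δ2) * qq ≤ ((nb F' v ∩ U).card : ℝ) := by
    intro v hv
    have h1 := (hdegs v hv).1
    have h2 : δ2 * q ≤ δ2 * qq := mul_le_mul_of_nonneg_left hqqq hδ2.le
    have h3 : 40 ≤ δ2 * q := by
      have h4 : 40 / δ2 ≤ q := by
        have : 40 / δ2 = 4 * (10 / δ2) := by ring
        rw [this]; linarith
      rw [div_le_iff₀ hδ2] at h4
      linarith only [h4]
    have e : (1 - δ2) * (qq : ℝ) = qq - δ2 * qq := by ring
    rw [e]
    linarith only [h1, h2, h3, hqq2, hδq2, hq0]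
  obtain ⟨M, hMF, hMm, hMU, hMc⟩ := hTUT F' qq U O Cs hdTq hdeg' hlow hen hFam.crit hFam.dis hCs
    (fun C hC => ⟨f C hC, hOf C hC, (hf C hC).2.2.2.1⟩)
  refine ⟨M, O, hMF.trans (Fr_le F U), hMm, hMU, hMc, ?_, ?_, ?_⟩
  · intro z hz
    obtain ⟨C, hC, rfl⟩ := hOmem z hz
    exact (hFam.crit C hC).1 (hf C hC).1
  · intro z hz
    obtain ⟨C, hC, rfl⟩ := hOmem z hz
    exact ⟨(hf C hC).2.1.1, (hf C hC).2.1.2.1, (hf C hC).2.1.2.2, (hf C hC).2.2.2.2⟩
  · refine ⟨Cs, hFam.dis, ?_, ?_⟩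
    · intro z hz
      obtain ⟨C, hC, rfl⟩ := hOmem z hz
      exact ⟨mem_Vq.mpr ⟨(hf C hC).2.1.1, (hf C hC).2.1.2.1⟩, C, hC, (hf C hC).1,
        (hf C hC).2.2.1⟩
    · intro C hC
      have key : ∀ z ∈ O ∩ C, z = f C hC := by
        intro z hz
        rw [mem_inter] at hz
        obtain ⟨C', hC', rfl⟩ := hOmem z hz.1
        by_cases he : C' = C
        · subst he; rfl
        · exact absurd hz.2 (disjoint_left.mp (hFam.dis C' hC' C hC he) (hf C' hC').1)
      rw [card_le_one]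
      intro z hz z' hz'
      rw [key z hz, key z' hz']

end Pool.Agent.Work.MP_db9399_lh.helper83
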