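import Pool.Agent.Work.MP_db9399_lh.Interface
import Pool.Agent.Work.MP_db9399_bg_helper83.Env0

/-! THEOREM LCH: densities, deep vertices in critical sets, degrees (helper83). -/

set_option autoImplicit false

namespace Pool.Agent.Work.MP_db9399_lh.helper83

open Finset Classical
open Pool.Agent.Work.MP_db9399_lh
open Pool.Agent.Work.MP_db9399_all (nb)
open Pool.Agent.Work.MP_db9399_px (LWalk hit ee)
open Pool.Agent.Work.MP_db9399_dn (NB IsMat Tot)
open Pool.Agent.Work.MP_db9399_sc (cut Crit Conn Env Fam Rnd Hv)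
open Pool.Agent.Work.MP_db9399_bg (den cl LabP Good PN IsPat en enP Sep Near REnv r0 Deep Spr Ok
  Lbl bx c3f c3 rs rs_symm eR HPre Ix mem_nb mem_cl)
open Pool.Agent.Work.MP_db9399_lc (BL)
open Pool.Agent.Work.MP_db9399_bg.helper83 (Fr Fr_le nb_Fr nb_Fr' nb_Fr_inter en_Fr notOk_card
  not_deep)

universe u

section
variable {V : Type u} [Fintype V]

/-- one family: at most `N |C ∩ Vg| / ((1 + g / 2) d)` vertices of `O` are deep in `C` -/
theorem used_one (hGROW : MP_db9399_lc.Stmt_GROW.{u}) {g : ℝ} (hg : 0 < g) (hg1 : g ≤ 1 / 10)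
    (G : SimpleGraph V) (d N : ℕ) (hN : 0 < N) (hBG : BL g (g / 100) G d) (Vg C O : Finset V)
    (hdeg : ∀ v, (1 - g / 100) * d / N ≤ ((nb G v ∩ Vg).card : ℝ))
    (hO : Spr g G d N Vg O) :
    (1 + g / 2) * d * (((C ∩ Vg).filter (fun z => Deep g G d N Vg C z ∧ z ∈ O)).card : ℝ) ≤
      N * ((C ∩ Vg).card : ℝ) := by
  obtain ⟨Cs, hdis, hz, h1⟩ := hO
  set S : Finset V := (C ∩ Vg).filter (fun z => Deep g G d N Vg C z ∧ z ∈ O) with hS
  have hex : ∀ z : V, ∃ C'' : Finset V, z ∈ S → C'' ∈ Cs ∧ z ∈ C'' ∧ Deep g G d N Vg C'' z := by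
    intro z
    by_cases h : z ∈ S
    · obtain ⟨-, C'', h2, h3, h4⟩ := hz z (mem_filter.mp h).2.2
      exact ⟨C'', fun _ => ⟨h2, h3, h4⟩⟩
    · exact ⟨∅, fun h' => absurd h' h⟩
  choose f hf using hex
  have hdisj : ∀ z ∈ S, ∀ z' ∈ S, z ≠ z' →
      Disjoint (C ∩ f z ∩ Vg) (C ∩ f z' ∩ Vg) := by
    intro z hz1 z' hz2 hne
    have hfne : f z ≠ f z' := by
      intro he
      have h3 := h1 (f z) (hf z hz1).1
      rw [card_le_one] at h3
      refine hne (h3 z ?_ z' ?_)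
      · exact mem_inter.mpr ⟨(mem_filter.mp hz1).2.2, (hf z hz1).2.1⟩
      · rw [he]
        exact mem_inter.mpr ⟨(mem_filter.mp hz2).2.2, (hf z' hz2).2.1⟩
    have h4 := hdis _ (hf z hz1).1 _ (hf z' hz2).1 hfne
    refine disjoint_left.mpr fun x hx hx' => ?_
    rw [mem_inter, mem_inter] at hx hx'
    exact disjoint_left.mp h4 hx.1.2 hx'.1.2
  have hsum : ∑ z ∈ S, (C ∩ f z ∩ Vg).card ≤ (C ∩ Vg).card := by
    rw [← card_biUnion hdisj]
    refine card_le_card fun x hx => ?_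
    obtain ⟨z, -, h5⟩ := mem_biUnion.mp hx
    rw [mem_inter, mem_inter] at h5
    exact mem_inter.mpr ⟨h5.1.1, h5.2⟩
  have hlow : ∀ z ∈ S, (1 + g / 2) * d ≤ N * ((C ∩ f z ∩ Vg).card : ℝ) := by
    intro z hz1
    exact hGROW g hg hg1 G d N Vg C (f z) z hN hBG hdeg (mem_filter.mp hz1).2.1 (hf z hz1).2.2
  calc (1 + g / 2) * d * (S.card : ℝ) = ∑ z ∈ S, (1 + g / 2) * (d : ℝ) := by
        rw [sum_const, nsmul_eq_mul]; ring
    _ ≤ ∑ z ∈ S, N * ((C ∩ f z ∩ Vg).card : ℝ) := sum_le_sum hlow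
    _ = N * ((∑ z ∈ S, (C ∩ f z ∩ Vg).card : ℕ) : ℝ) := by
        rw [← mul_sum]; push_cast; ring
    _ ≤ _ := by
        refine mul_le_mul_of_nonneg_left ?_ (Nat.cast_nonneg _)
        exact_mod_cast hsum

/-- the used vertices which are deep in `C` -/
theorem used_deep (hGROW : MP_db9399_lc.Stmt_GROW.{u}) {g : ℝ} (hg : 0 < g) (hg1 : g ≤ 1 / 10)
    (G : SimpleGraph V) (d N : ℕ) (hN : 0 < N) (hd : 0 < d) (hBG : BL g (g / 100) G d)
    (Vg C : Finset V) (hdeg : ∀ v, (1 - g / 100) * d / N ≤ ((nb G v ∩ Vg).card : ℝ))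
    (lg : ℕ) (Oi : ℕ → Finset V) (hlg : lg * N ≤ d) (hO : ∀ i < lg, Spr g G d N Vg (Oi i)) :
    (1 + g / 2) * (((C ∩ Vg).filter (fun z => Deep g G d N Vg C z ∧ ∃ i < lg, z ∈ Oi i)).card : ℝ) ≤
      ((C ∩ Vg).card : ℝ) := by
  set S : Finset V := (C ∩ Vg).filter (fun z => Deep g G d N Vg C z ∧ ∃ i < lg, z ∈ Oi i) with hS
  have hd' : (0 : ℝ) < d := by exact_mod_cast hd
  have hsub : S ⊆ (range lg).biUnion fun i =>
      (C ∩ Vg).filter (fun z => Deep g G d N Vg C z ∧ z ∈ Oi i) := by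
    intro z hz
    obtain ⟨h1, h2, i, h3, h4⟩ := mem_filter.mp hz
    exact mem_biUnion.mpr ⟨i, mem_range.mpr h3, mem_filter.mpr ⟨h1, h2, h4⟩⟩
  have h1 : (S.card : ℝ) ≤ ∑ i ∈ range lg,
      (((C ∩ Vg).filter (fun z => Deep g G d N Vg C z ∧ z ∈ Oi i)).card : ℝ) := by
    have := (card_le_card hsub).trans card_biUnion_le
    exact_mod_cast this
  have h2 : (1 + g / 2) * d * (S.card : ℝ) ≤ d * ((C ∩ Vg).card : ℝ) := by
    calc (1 + g / 2) * d * (S.card : ℝ) ≤ (1 + g / 2) * d * ∑ i ∈ range lg,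
          (((C ∩ Vg).filter (fun z => Deep g G d N Vg C z ∧ z ∈ Oi i)).card : ℝ) :=
          mul_le_mul_of_nonneg_left h1 (by positivity)
      _ = ∑ i ∈ range lg, (1 + g / 2) * d *
          (((C ∩ Vg).filter (fun z => Deep g G d N Vg C z ∧ z ∈ Oi i)).card : ℝ) := by
          rw [mul_sum]
      _ ≤ ∑ i ∈ range lg, N * ((C ∩ Vg).card : ℝ) := by
          refine sum_le_sum fun i hi => ?_
          exact used_one hGROW hg hg1 G d N hN hBG Vg C (Oi i) hdeg (hO i (mem_range.mp hi))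
      _ = ((lg * N : ℕ) : ℝ) * ((C ∩ Vg).card : ℝ) := by
          rw [sum_const, nsmul_eq_mul, card_range]; push_cast; ring
      _ ≤ _ := by
          refine mul_le_mul_of_nonneg_right ?_ (Nat.cast_nonneg _)
          exact_mod_cast hlg
  have h3 : d * ((1 + g / 2) * (S.card : ℝ)) ≤ d * ((C ∩ Vg).card : ℝ) := by
    calc _ = (1 + g / 2) * d * (S.card : ℝ) := by ring
      _ ≤ _ := h2
  exact le_of_mul_le_mul_left h3 hd'

/-- degrees in the situation of a round -/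
theorem env_deg {T β : Type} [Fintype T] [Fintype β] {P : β → Finset T} {R : β → β → Prop}
    {n L : ℕ} {p : ℝ} (hP : IsPat P R n L p) {G F : SimpleGraph V} {d : ℕ} {σ c1 ε0 g δ : ℝ}
    {lab : V → T} {U J : Finset V} (hL : LabP G d σ c1 lab) (hBG : BL g ε0 G d)
    (hE : REnv G F (n * p * d) δ lab P R U J) (hσ : σ * d ≤ δ * (n * p * d)) (hε : ε0 ≤ δ)
    (hδ : 0 ≤ δ) (v : V) (hv : v ∈ U) :
    (1 - 3 * δ) * (n * p * d) ≤ ((nb F v ∩ U).card : ℝ) ∧
      ((nb F v ∩ U).card : ℝ) ≤ (1 + 2 * δ) * (n * p * d) := by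
  have hq0 : (0 : ℝ) ≤ n * p * d := by
    have := hP.p0
    positivity
  by_cases hJ : v ∈ J
  · obtain ⟨h1, h2⟩ := hE.jdeg v hJ
    have h3 : 0 ≤ δ * (n * p * d) := mul_nonneg hδ hq0
    constructor <;> nlinarith
  obtain ⟨b, hb⟩ := hE.UP v hv hJ
  have h1 := hL.deg v (PN P R b)
  rw [hP.den_PN b, abs_le] at h1
  have hdeg : ((nb G v).card : ℝ) ≤ d := by exact_mod_cast hBG.deg v
  have hlow := hBG.low v
  have hnp : (0 : ℝ) ≤ n * p := mul_nonneg (Nat.cast_nonneg _) hP.p0.le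
  have h2 : (n : ℝ) * p * ((nb G v).card : ℝ) ≤ n * p * d := mul_le_mul_of_nonneg_left hdeg hnp
  have h3 : (1 - δ) * (n * p * d) ≤ (n : ℝ) * p * ((nb G v).card : ℝ) := by
    have h4 : (1 - δ) * d ≤ ((nb G v).card : ℝ) := by
      have : ε0 * d ≤ δ * d := mul_le_mul_of_nonneg_right hε (Nat.cast_nonneg _)
      linarith
    calc (1 - δ) * (n * p * d) = n * p * ((1 - δ) * d) := by ring
      _ ≤ _ := mul_le_mul_of_nonneg_left h4 hnp
  have hmiss := hE.miss b v hv hb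
  have hjunk := hE.junk v
  constructor
  · have h5 : ((nb G v ∩ cl lab (PN P R b)).card : ℝ) ≤
        (((nb G v ∩ cl lab (PN P R b)) \ (nb F v ∩ U)).card : ℝ) + ((nb F v ∩ U).card : ℝ) := by
      have : nb G v ∩ cl lab (PN P R b) ⊆
          ((nb G v ∩ cl lab (PN P R b)) \ (nb F v ∩ U)) ∪ (nb F v ∩ U) := by
        intro x hx
        by_cases h : x ∈ nb F v ∩ U
        · exact mem_union_right _ h
        · exact mem_union_left _ (mem_sdiff.mpr ⟨hx, h⟩)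
      exact_mod_cast (card_le_card this).trans (card_union_le _ _)
    linarith [h1.1]
  · have h5 : ((nb F v ∩ U).card : ℝ) ≤ ((nb G v ∩ cl lab (PN P R b)).card : ℝ) +
        ((nb G v ∩ J).card : ℝ) := by
      have : nb F v ∩ U ⊆ (nb G v ∩ cl lab (PN P R b)) ∪ (nb G v ∩ J) := by
        intro x hx
        rw [mem_inter, mem_nb] at hx
        have hG : x ∈ nb G v := mem_nb.mpr (hE.FG hx.1)
        by_cases hxJ : x ∈ J
        · exact mem_union_right _ (mem_inter.mpr ⟨hG, hxJ⟩)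
        · exact mem_union_left _ (mem_inter.mpr ⟨hG, mem_cl.mpr (hE.FF b v hv hb x hx.2 hxJ hx.1)⟩)
      exact_mod_cast (card_le_card this).trans (card_union_le _ _)
    linarith [h1.2]

theorem BL_mono {g ε ε' : ℝ} {G : SimpleGraph V} {d : ℕ} (h : BL g ε G d) (he : ε ≤ ε') :
    BL g ε' G d where
  deg := h.deg
  low v := by
    have h1 := h.low v
    have h2 : (0 : ℝ) ≤ (ε' - ε) * d := mul_nonneg (by linarith) (Nat.cast_nonneg _)
    nlinarith
  bip := h.bip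
  nsc := h.nsc
  big := h.big

end

section lbl
variable {V : Type u} [Fintype V] {l m r K K1 S : ℕ}

theorem mem_cy {A : Finset (ZMod (2 * m + 1))} {Φ : Finset (Cr l S)} {t : Lh l m r K K1 S} :
    t ∈ cy A Φ ↔ ce t ∈ A ∧ cr t ∈ Φ := by
  simp [cy]

/-- the labels as product of cell, core and the rest -/
def lhEquiv : Lh l m r K K1 S ≃ (ZMod (2 * m + 1) × Cr l S) ×
    (Fin (r + 1) × (ZMod (2 * m + 1) × (Fin (K + 1) × Fin (K1 + 1)))) where
  toFun t := ((t.1.1, (t.1.2.1, t.2)), t.1.2.2)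
  invFun s := ((s.1.1, (s.1.2.1, s.2)), s.1.2.2)
  left_inv t := rfl
  right_inv s := rfl

theorem card_Lh : Fintype.card (Lh l m r K K1 S) =
    ((2 * m + 1) * ((2 * l + 1) * (3 * (S + 1)))) *
      ((r + 1) * ((2 * m + 1) * ((K + 1) * (K1 + 1)))) := by
  rw [Fintype.card_congr (lhEquiv (l := l) (m := m) (r := r) (K := K) (K1 := K1) (S := S)),
    Fintype.card_prod, Fintype.card_prod, Fintype.card_prod, Fintype.card_prod, Fintype.card_prod,
    Fintype.card_prod, Fintype.card_prod, ZMod.card, ZMod.card, ZMod.card, ZMod.card,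
    Fintype.card_fin, Fintype.card_fin, Fintype.card_fin]

theorem den_cy (A : Finset (ZMod (2 * m + 1))) (Φ : Finset (Cr l S)) :
    den (cy A Φ : Finset (Lh l m r K K1 S)) =
      (A.card / (2 * (m : ℝ) + 1)) * (Φ.card / ((2 * (l : ℝ) + 1) * (3 * ((S : ℝ) + 1)))) := by
  have h : (cy A Φ : Finset (Lh l m r K K1 S)).card = ((A ×ˢ Φ) ×ˢ
      (univ : Finset (Fin (r + 1) × (ZMod (2 * m + 1) × (Fin (K + 1) × Fin (K1 + 1)))))).card := by
    refine card_equiv lhEquiv fun t => ?_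
    rw [mem_cy, mem_product, mem_product]
    simp [lhEquiv]
  unfold den
  rw [h, card_product, card_product, card_univ, Fintype.card_prod, Fintype.card_prod,
    Fintype.card_prod, ZMod.card, Fintype.card_fin, Fintype.card_fin, Fintype.card_fin, card_Lh]
  push_cast
  have h1 : (2 * (m : ℝ) + 1) ≠ 0 := by positivity
  have h2 : (2 * (l : ℝ) + 1) ≠ 0 := by positivity
  have h3 : ((r : ℝ) + 1) ≠ 0 := by positivity
  have h4 : ((K : ℝ) + 1) ≠ 0 := by positivity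
  have h5 : ((K1 : ℝ) + 1) ≠ 0 := by positivity
  have h6 : ((S : ℝ) + 1) ≠ 0 := by positivity
  field_simp

/-- cores in the part `i` -/
noncomputable def Pc (l S : ℕ) (i : ZMod 3) : Finset (Cr l S) := univ ×ˢ ({i} ×ˢ univ)

theorem card_Pc (i : ZMod 3) : ((Pc l S i).card : ℝ) = (2 * (l : ℝ) + 1) * ((S : ℝ) + 1) := by
  unfold Pc
  rw [card_product, card_product, card_singleton, card_univ, card_univ, ZMod.card, ZMod.card]
  push_cast
  ring

/-- cores in the part `i` which may be missed -/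
noncomputable def Mc (l S : ℕ) (i : ZMod 3) : Finset (Cr l S) :=
  (univ.filter (fun x : ZMod (2 * l + 1) => 2 ≤ x.val ∧ x.val ≠ l ∧ x.val ≠ l + 1)) ×ˢ
    ({i} ×ˢ univ)

theorem card_Mc (i : ZMod 3) :
    (2 * (l : ℝ) + 1 - 4) * ((S : ℝ) + 1) ≤ ((Mc l S i).card : ℝ) ∧
      ((Mc l S i).card : ℝ) ≤ (2 * (l : ℝ) + 1) * ((S : ℝ) + 1) := by
  have h1 : (2 * l + 1) ≤ (univ.filter (fun x : ZMod (2 * l + 1) =>
      2 ≤ x.val ∧ x.val ≠ l ∧ x.val ≠ l + 1)).card + 4 := by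
    have hsub : (univ : Finset (ZMod (2 * l + 1))) ⊆ (univ.filter (fun x : ZMod (2 * l + 1) =>
        2 ≤ x.val ∧ x.val ≠ l ∧ x.val ≠ l + 1)) ∪
        ({(0 : ZMod (2 * l + 1)), 1, ((l : ℕ) : ZMod (2 * l + 1)),
          ((l + 1 : ℕ) : ZMod (2 * l + 1))} : Finset _) := by
      intro x _
      rw [mem_union, mem_filter]
      by_cases hx : 2 ≤ x.val ∧ x.val ≠ l ∧ x.val ≠ l + 1
      · exact Or.inl ⟨mem_univ _, hx⟩
      · refine Or.inr ?_
        have hxv : ((x.val : ℕ) : ZMod (2 * l + 1)) = x := ZMod.natCast_zmod_val x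
        simp only [mem_insert, mem_singleton]
        have : x.val = 0 ∨ x.val = 1 ∨ x.val = l ∨ x.val = l + 1 := by omega
        rcases this with h | h | h | h
        · left; rw [← hxv, h]; simp
        · right; left; rw [← hxv, h]; simp
        · right; right; left; rw [← hxv, h]
        · right; right; right; rw [← hxv, h]
    have h2 := card_le_card hsub
    rw [card_univ, ZMod.card] at h2
    have h3 := card_union_le (univ.filter (fun x : ZMod (2 * l + 1) =>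
        2 ≤ x.val ∧ x.val ≠ l ∧ x.val ≠ l + 1))
        ({(0 : ZMod (2 * l + 1)), 1, ((l : ℕ) : ZMod (2 * l + 1)),
          ((l + 1 : ℕ) : ZMod (2 * l + 1))} : Finset _)
    have h4 : ({(0 : ZMod (2 * l + 1)), 1, ((l : ℕ) : ZMod (2 * l + 1)),
          ((l + 1 : ℕ) : ZMod (2 * l + 1))} : Finset _).card ≤ 4 := card_le_four
    omega
  have h2 : (univ.filter (fun x : ZMod (2 * l + 1) =>
      2 ≤ x.val ∧ x.val ≠ l ∧ x.val ≠ l + 1)).card ≤ 2 * l + 1 := by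
    refine (card_le_univ _).trans ?_
    rw [ZMod.card]
  unfold Mc
  rw [card_product, card_product, card_singleton, card_univ, ZMod.card]
  have h1' : (2 * (l : ℝ) + 1) ≤ ((univ.filter (fun x : ZMod (2 * l + 1) =>
      2 ≤ x.val ∧ x.val ≠ l ∧ x.val ≠ l + 1)).card : ℝ) + 4 := by exact_mod_cast h1
  have h2' : ((univ.filter (fun x : ZMod (2 * l + 1) =>
      2 ≤ x.val ∧ x.val ≠ l ∧ x.val ≠ l + 1)).card : ℝ) ≤ 2 * (l : ℝ) + 1 := by exact_mod_cast h2
  push_cast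
  rw [one_mul]
  constructor
  · exact mul_le_mul_of_nonneg_right (by linarith) (by positivity)
  · exact mul_le_mul_of_nonneg_right h2' (by positivity)

theorem Vq_eq (lab : V → Lh l m r K K1 S) (a : ZMod (2 * m + 1)) (i : ZMod 3) :
    Vq lab a i = cl lab (cy {a} (Pc l S i)) := by
  ext v
  rw [mem_cl, mem_cy, Vq, mem_filter]
  simp only [Pc, mem_singleton, mem_product, mem_univ, true_and, and_true]

theorem mem_Vq {lab : V → Lh l m r K K1 S} {a : ZMod (2 * m + 1)} {i : ZMod 3} {v : V} :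
    v ∈ Vq lab a i ↔ ce (lab v) = a ∧ pt (lab v) = i := by
  simp [Vq]

theorem den_Vq (a : ZMod (2 * m + 1)) (i : ZMod 3) :
    den (cy {a} (Pc l S i) : Finset (Lh l m r K K1 S)) = 1 / (3 * (2 * (m : ℝ) + 1)) := by
  rw [den_cy, card_Pc, card_singleton]
  have h1 : (2 * (m : ℝ) + 1) ≠ 0 := by positivity
  have h2 : (2 * (l : ℝ) + 1) ≠ 0 := by positivity
  have h6 : ((S : ℝ) + 1) ≠ 0 := by positivity
  push_cast
  field_simp

theorem mem_Mq {a : ZMod (2 * m + 1)} {i : ZMod 3} {t : Lh l m r K K1 S} :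
    t ∈ cy {a} (Mc l S i) ↔ ce t = a ∧ pt t = i ∧ inM t := by
  rw [mem_cy]
  simp only [Mc, inM, mem_singleton, mem_product, mem_filter, mem_univ, true_and, and_true]
  tauto

theorem den_Mq (a : ZMod (2 * m + 1)) (i : ZMod 3) :
    (1 - 4 / (2 * (l : ℝ) + 1)) * (1 / (3 * (2 * (m : ℝ) + 1))) ≤
      den (cy {a} (Mc l S i) : Finset (Lh l m r K K1 S)) ∧
    den (cy {a} (Mc l S i) : Finset (Lh l m r K K1 S)) ≤ 1 / (3 * (2 * (m : ℝ) + 1)) := by
  rw [den_cy, card_singleton]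
  obtain ⟨h1, h2⟩ := card_Mc (l := l) (S := S) i
  have e1 : (0 : ℝ) < 2 * (m : ℝ) + 1 := by positivity
  have e2 : (0 : ℝ) < 2 * (l : ℝ) + 1 := by positivity
  have e3 : (0 : ℝ) < (S : ℝ) + 1 := by positivity
  have e4 : (0 : ℝ) < (2 * (l : ℝ) + 1) * (3 * ((S : ℝ) + 1)) := by positivity
  push_cast
  constructor
  · calc (1 - 4 / (2 * (l : ℝ) + 1)) * (1 / (3 * (2 * (m : ℝ) + 1)))
        = 1 / (2 * (m : ℝ) + 1) * (((2 * (l : ℝ) + 1 - 4) * ((S : ℝ) + 1)) /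
          ((2 * (l : ℝ) + 1) * (3 * ((S : ℝ) + 1)))) := by field_simp
      _ ≤ _ := by
          refine mul_le_mul_of_nonneg_left ?_ (by positivity)
          exact div_le_div_of_nonneg_right h1 e4.le
  · calc 1 / (2 * (m : ℝ) + 1) * (((Mc l S i).card : ℝ) /
          ((2 * (l : ℝ) + 1) * (3 * ((S : ℝ) + 1))))
        ≤ 1 / (2 * (m : ℝ) + 1) * (((2 * (l : ℝ) + 1) * ((S : ℝ) + 1)) /
          ((2 * (l : ℝ) + 1) * (3 * ((S : ℝ) + 1)))) := by
          refine mul_le_mul_of_nonneg_left ?_ (by positivity)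
          exact div_le_div_of_nonneg_right h2 e4.le
      _ = _ := by field_simp

/-- degrees into a cell of a part -/
theorem cell_deg {G : SimpleGraph V} {d : ℕ} {σ c1 ε0 g : ℝ} {lab : V → Lh l m r K K1 S}
    (hL : LabP G d σ c1 lab) (hBG : BL g ε0 G d) (hε : ε0 ≤ g / 200) (hg1 : g ≤ 1 / 10)
    (hσ : σ * (3 * (2 * (m : ℝ) + 1)) ≤ g / 200) (a : ZMod (2 * m + 1)) (i : ZMod 3) (v : V) :
    (1 - g / 100) * d / ((3 * (2 * m + 1) : ℕ) : ℝ) ≤ ((nb G v ∩ Vq lab a i).card : ℝ) ∧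
      ((nb G v ∩ Vq lab a i).card : ℝ) ≤ 2 * d / ((3 * (2 * m + 1) : ℕ) : ℝ) := by
  have h1 := hL.deg v (cy {a} (Pc l S i))
  rw [← Vq_eq, den_Vq, abs_le] at h1
  have h2 : ((nb G v).card : ℝ) ≤ d := by exact_mod_cast hBG.deg v
  have h3 := hBG.low v
  have hN : (0 : ℝ) < 3 * (2 * (m : ℝ) + 1) := by positivity
  have hd0 : (0 : ℝ) ≤ d := Nat.cast_nonneg _
  push_cast
  obtain ⟨h4, h5⟩ := h1
  have h6 : 1 / (3 * (2 * (m : ℝ) + 1)) * ((nb G v).card : ℝ) =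
      ((nb G v).card : ℝ) / (3 * (2 * (m : ℝ) + 1)) := by
    ring
  rw [h6] at h4 h5
  have h7 : σ * d * (3 * (2 * (m : ℝ) + 1)) ≤ g / 200 * d := by
    calc σ * d * (3 * (2 * (m : ℝ) + 1)) = σ * (3 * (2 * (m : ℝ) + 1)) * d := by ring
      _ ≤ _ := mul_le_mul_of_nonneg_right hσ hd0
  have h8 : (nb G v).card / (3 * (2 * (m : ℝ) + 1)) * (3 * (2 * (m : ℝ) + 1)) =
      ((nb G v).card : ℝ) := by
    field_simp
  have h9 : ε0 * d ≤ g / 200 * d := mul_le_mul_of_nonneg_right hε hd0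
  constructor
  · rw [div_le_iff₀ hN]
    have h10 : ((nb G v).card / (3 * (2 * (m : ℝ) + 1)) - σ * d) * (3 * (2 * (m : ℝ) + 1)) ≤
        ((nb G v ∩ Vq lab a i).card : ℝ) * (3 * (2 * (m : ℝ) + 1)) :=
      mul_le_mul_of_nonneg_right (by linarith) hN.le
    rw [sub_mul, h8] at h10
    nlinarith
  · rw [le_div_iff₀ hN]
    have h10 : ((nb G v ∩ Vq lab a i).card : ℝ) * (3 * (2 * (m : ℝ) + 1)) ≤
        ((nb G v).card / (3 * (2 * (m : ℝ) + 1)) + σ * d) * (3 * (2 * (m : ℝ) + 1)) :=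
      mul_le_mul_of_nonneg_right (by linarith) hN.le
    rw [add_mul, h8] at h10
    nlinarith

end lbl

/-- final inequality -/
theorem final_ineq {t Λ ε κ g x1 b1 b2 b3 cv : ℝ} (ht : 0 < t) (hg : 0 < g)
    (hg1 : g ≤ 1 / 10) (hκ : 0 < κ) (hε : 0 ≤ ε) (hε1 : ε * (5 + 2 * κ) ≤ g / 40)
    (hl : 200 ≤ g * Λ) (hl0 : 0 < Λ)
    (h1 : t * (1 - 4 / Λ - 2 * ε) ≤ x1) (h2 : b1 ≤ (1 + 2 * κ) * ε * t) (h0 : 0 ≤ b2)
    (h3 : (1 + g / 2) * b2 ≤ cv) (h4 : cv ≤ (1 + 2 * ε) * t) (h5 : b3 ≤ 20 * t / Λ) :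
    b1 + b2 + b3 < x1 := by
  set u := 1 / Λ with hu
  have e1 : 4 / Λ = 4 * u := by rw [hu]; ring
  have e2 : 20 * t / Λ = 20 * t * u := by rw [hu]; ring
  rw [e1] at h1
  rw [e2] at h5
  have hu1 : 200 * u ≤ g := by
    rw [hu, mul_one_div, div_le_iff₀ hl0]
    exact hl
  have hu0 : 0 < u := by rw [hu]; positivity
  have hb2 : b2 ≤ cv * (1 - g / 3) := by
    have h6 : (1 : ℝ) ≤ (1 + g / 2) * (1 - g / 3) := by nlinarith
    have h7 : b2 * 1 ≤ b2 * ((1 + g / 2) * (1 - g / 3)) := mul_le_mul_of_nonneg_left h6 h0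
    have h8 : (1 + g / 2) * b2 * (1 - g / 3) ≤ cv * (1 - g / 3) :=
      mul_le_mul_of_nonneg_right h3 (by linarith)
    nlinarith
  have hb2' : b2 ≤ (1 + 2 * ε) * t * (1 - g / 3) :=
    hb2.trans (mul_le_mul_of_nonneg_right h4 (by linarith))
  have hεt : 0 ≤ ε * t := mul_nonneg hε ht.le
  have h9 : ε * (5 + 2 * κ) * t ≤ g / 40 * t := mul_le_mul_of_nonneg_right hε1 ht.le
  have h10 : 200 * u * t ≤ g * t := mul_le_mul_of_nonneg_right hu1 ht.le
  have h11 : 0 < g * t := mul_pos hg ht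
  have h12 : 0 ≤ ε * t * g := mul_nonneg hεt hg.le
  nlinarith

end Pool.Agent.Work.MP_db9399_lh.helper83
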